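import Mathlib

set_option autoImplicit false

/-!
# MP_5ead0a_co: a 3-critical graph on 28 vertices with `γ = 3` and `i = 4`

The vertices are `v_{i,j}` with `0 ≤ i < 4` (rows) and `0 ≤ j < 7` (columns). Vertices in
different rows are adjacent iff they are in different columns; inside row `i` the vertices
`v_{i,j}`, `v_{i,p}` are adjacent iff `jp` is an edge of `F_i`, where `F_0, F_1, F_2, F_3` is a
decomposition of `K_7` into graphs without dominating pairs and without independent dominating
sets of size at most three.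
-/

namespace Pool.Agent.Results.MP_5ead0a_co.TwentyEight

open SimpleGraph

/-- `D` is a dominating set of `G`: every vertex is in `D` or has a neighbour in `D`. -/
def Dominating {V : Type} (G : SimpleGraph V) (D : Finset V) : Prop :=
  ∀ v, v ∈ D ∨ ∃ w ∈ D, G.Adj w v

/-- `D` is an independent set of `G`. -/
def Independent {V : Type} (G : SimpleGraph V) (D : Finset V) : Prop :=
  ∀ u ∈ D, ∀ v ∈ D, ¬ G.Adj u v

/-- The domination number. -/
noncomputable def gam {V : Type} (G : SimpleGraph V) : ℕ :=
  sInf {k | ∃ D : Finset V, Dominating G D ∧ D.card = k}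

/-- The independent domination number. -/
noncomputable def idom {V : Type} (G : SimpleGraph V) : ℕ :=
  sInf {k | ∃ D : Finset V, Dominating G D ∧ Independent G D ∧ D.card = k}

/-- `G` is 3-critical: `γ(G) = 3` and `γ(G + uv) < 3` for all distinct non-adjacent `u, v`. -/
def ThreeCritical {V : Type} (G : SimpleGraph V) : Prop :=
  gam G = 3 ∧ ∀ u v, u ≠ v → ¬ G.Adj u v → gam (G ⊔ edge u v) < 3

/-- The edges (in both directions) of the row graph `F_i`. -/
def rowEdges : ℕ → List (ℕ × ℕ)
  | 0 => [(2, 3), (3, 2), (2, 5), (5, 2), (3, 4), (4, 3), (3, 6), (6, 3), (4, 6), (6, 4),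
          (5, 6), (6, 5)]
  | 1 => [(0, 4), (4, 0), (0, 6), (6, 0), (1, 4), (4, 1), (1, 5), (5, 1), (4, 5), (5, 4)]
  | 2 => [(0, 1), (1, 0), (0, 2), (2, 0), (0, 3), (3, 0), (1, 2), (2, 1), (1, 6), (6, 1),
          (2, 6), (6, 2)]
  | _ => [(0, 5), (5, 0), (1, 3), (3, 1), (2, 4), (4, 2), (3, 5), (5, 3)]

/-- Adjacency test; vertex `7 i + j` is `v_{i,j}`. -/
def adjB (a b : Fin 28) : Bool :=
  if a.val / 7 = b.val / 7 then (rowEdges (a.val / 7)).contains (a.val % 7, b.val % 7)
  else a.val % 7 != b.val % 7

/-- The graph on 28 vertices. -/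
def H : SimpleGraph (Fin 28) where
  Adj a b := adjB a b = true
  symm := ⟨by decide +kernel⟩
  loopless := ⟨by decide +kernel⟩

theorem adj_iff (a b : Fin 28) : H.Adj a b ↔ adjB a b = true := Iff.rfl

/-- The closed neighbourhood test. -/
def cl (a b : Fin 28) : Bool := (a == b) || adjB a b

theorem no_pair : ∀ a b : Fin 28, ∃ v : Fin 28, cl a v = false ∧ cl b v = false := by
  decide +kernel

theorem no_indep : ∀ a b c : Fin 28, adjB a b = false → adjB a c = false → adjB b c = false →
    ∃ v : Fin 28, cl a v = false ∧ cl b v = false ∧ cl c v = false := by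
  decide +kernel

theorem crit : ∀ u v : Fin 28, u ≠ v → adjB u v = false → ∃ w : Fin 28,
    (∀ x, (cl u x || cl w x || x == v) = true) ∨ (∀ x, (cl v x || cl w x || x == u) = true) := by
  decide +kernel

theorem column : (∀ x : Fin 28, (cl 0 x || cl 7 x || cl 14 x || cl 21 x) = true) ∧
    ∀ a ∈ ({0, 7, 14, 21} : Finset (Fin 28)), ∀ b ∈ ({0, 7, 14, 21} : Finset (Fin 28)),
      adjB a b = false := by
  decide +kernel

theorem three : ∃ a b c : Fin 28, ∀ x : Fin 28, (cl a x || cl b x || cl c x) = true := by
  obtain ⟨w, hw | hw⟩ := crit 0 7 (by decide) (by decide +kernel)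
  · refine ⟨0, w, 7, fun x => ?_⟩
    have := hw x
    simp only [Bool.or_eq_true] at this ⊢
    rcases this with (h | h) | h
    · exact Or.inl (Or.inl h)
    · exact Or.inl (Or.inr h)
    · refine Or.inr ?_
      have hx : x = 7 := by simpa using h
      subst hx
      decide
  · refine ⟨7, w, 0, fun x => ?_⟩
    have := hw x
    simp only [Bool.or_eq_true] at this ⊢
    rcases this with (h | h) | h
    · exact Or.inl (Or.inl h)
    · exact Or.inl (Or.inr h)
    · refine Or.inr ?_
      have hx : x = 0 := by simpa using h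
      subst hx
      decide

theorem cl_false {a v : Fin 28} (h : cl a v = false) : a ≠ v ∧ ¬ H.Adj a v := by
  simp only [cl, Bool.or_eq_false_iff, beq_eq_false_iff_ne] at h
  exact ⟨h.1, by rw [adj_iff, h.2]; simp⟩

theorem cl_true {a v : Fin 28} (h : cl a v = true) : a = v ∨ H.Adj a v := by
  simpa [cl, adj_iff] using h

/-- A finset with at most two elements is contained in some `{a, b}` and so on. -/
theorem sub_two {D : Finset (Fin 28)} (h : D.card ≤ 2) : ∃ a b, ∀ x ∈ D, x = a ∨ x = b := by
  rcases Nat.lt_or_ge D.card 1 with h0 | h1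
  · have : D = ∅ := Finset.card_eq_zero.1 (by omega)
    exact ⟨0, 0, by simp [this]⟩
  rcases Nat.lt_or_ge D.card 2 with h2 | h2
  · obtain ⟨a, rfl⟩ := Finset.card_eq_one.1 (show D.card = 1 by omega)
    exact ⟨a, a, by simp⟩
  · obtain ⟨a, b, -, rfl⟩ := Finset.card_eq_two.1 (show D.card = 2 by omega)
    exact ⟨a, b, by simp⟩

theorem gam_ge : ∀ D : Finset (Fin 28), Dominating H D → 3 ≤ D.card := by
  intro D hD
  by_contra hlt
  obtain ⟨a, b, hab⟩ := sub_two (show D.card ≤ 2 by omega)
  obtain ⟨v, hav, hbv⟩ := no_pair a b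
  rcases hD v with hv | ⟨w, hw, hwv⟩
  · rcases hab v hv with h | h
    · exact (cl_false hav).1 h.symm
    · exact (cl_false hbv).1 h.symm
  · rcases hab w hw with h | h
    · exact (cl_false hav).2 (h ▸ hwv)
    · exact (cl_false hbv).2 (h ▸ hwv)

theorem idom_ge : ∀ D : Finset (Fin 28), Dominating H D → Independent H D → 4 ≤ D.card := by
  intro D hD hI
  by_contra hlt
  have h3 := gam_ge D hD
  obtain ⟨a, b, c, -, -, -, rfl⟩ := Finset.card_eq_three.1 (show D.card = 3 by omega)
  have key : ∀ x ∈ ({a, b, c} : Finset (Fin 28)), ∀ y ∈ ({a, b, c} : Finset (Fin 28)),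
      adjB x y = false := by
    intro x hx y hy
    have := hI x hx y hy
    rw [adj_iff] at this
    simpa using this
  obtain ⟨v, hav, hbv, hcv⟩ := no_indep a b c (key a (by simp) b (by simp))
    (key a (by simp) c (by simp)) (key b (by simp) c (by simp))
  rcases hD v with hv | ⟨w, hw, hwv⟩
  · simp only [Finset.mem_insert, Finset.mem_singleton] at hv
    rcases hv with h | h | h
    · exact (cl_false hav).1 h.symm
    · exact (cl_false hbv).1 h.symm
    · exact (cl_false hcv).1 h.symm
  · simp only [Finset.mem_insert, Finset.mem_singleton] at hw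
    rcases hw with h | h | h
    · exact (cl_false hav).2 (h ▸ hwv)
    · exact (cl_false hbv).2 (h ▸ hwv)
    · exact (cl_false hcv).2 (h ▸ hwv)

theorem gam_eq : gam H = 3 := by
  obtain ⟨a, b, c, habc⟩ := three
  have hdom : Dominating H {a, b, c} := by
    intro x
    have := habc x
    simp only [Bool.or_eq_true] at this
    rcases this with (h | h) | h
    all_goals
      rcases cl_true h with h' | h'
      · left; simp [h']
      · right; exact ⟨_, by simp, h'⟩
  have hcard : ({a, b, c} : Finset (Fin 28)).card ≤ 3 := Finset.card_le_three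
  have hmem : ({a, b, c} : Finset (Fin 28)).card ∈
      {k | ∃ D : Finset (Fin 28), Dominating H D ∧ D.card = k} := ⟨_, hdom, rfl⟩
  have hle : gam H ≤ 3 := (Nat.sInf_le hmem).trans hcard
  obtain ⟨D, hD, hDc⟩ := Nat.sInf_mem (⟨_, hmem⟩ :
    {k | ∃ D : Finset (Fin 28), Dominating H D ∧ D.card = k}.Nonempty)
  have := gam_ge D hD
  have h2 : D.card = gam H := hDc
  omega

theorem idom_eq : idom H = 4 := by
  have hdom : Dominating H {0, 7, 14, 21} := by
    intro x
    have := column.1 x
    simp only [Bool.or_eq_true] at this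
    rcases this with ((h | h) | h) | h
    all_goals
      rcases cl_true h with h' | h'
      · left; simp [← h']
      · right; exact ⟨_, by simp, h'⟩
  have hind : Independent H {0, 7, 14, 21} := by
    intro a ha b hb
    rw [adj_iff, column.2 a ha b hb]
    simp
  have hmem : 4 ∈ {k | ∃ D : Finset (Fin 28), Dominating H D ∧ Independent H D ∧ D.card = k} :=
    ⟨_, hdom, hind, by decide⟩
  have hle : idom H ≤ 4 := Nat.sInf_le hmem
  obtain ⟨D, hD, hI, hDc⟩ := Nat.sInf_mem (⟨_, hmem⟩ :
    {k | ∃ D : Finset (Fin 28), Dominating H D ∧ Independent H D ∧ D.card = k}.Nonempty)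
  have := idom_ge D hD hI
  have h2 : D.card = idom H := hDc
  omega

theorem critical : ThreeCritical H := by
  refine ⟨gam_eq, ?_⟩
  have main : ∀ u v w : Fin 28, u ≠ v → (∀ x, (cl u x || cl w x || x == v) = true) →
      ∀ G : SimpleGraph (Fin 28), H ≤ G → G.Adj u v → gam G < 3 := by
    intro u v w huv hw G hG huvG
    have hdom : Dominating G {u, w} := by
      intro x
      have := hw x
      simp only [Bool.or_eq_true] at this
      rcases this with (h | h) | h
      · rcases cl_true h with h' | h'
        · left; simp [h']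
        · right; exact ⟨u, by simp, hG h'⟩
      · rcases cl_true h with h' | h'
        · left; simp [h']
        · right; exact ⟨w, by simp, hG h'⟩
      · have hx : x = v := by simpa using h
        right; exact ⟨u, by simp, hx ▸ huvG⟩
    have hcard : ({u, w} : Finset (Fin 28)).card ≤ 2 := Finset.card_le_two
    have : gam G ≤ ({u, w} : Finset (Fin 28)).card := Nat.sInf_le ⟨_, hdom, rfl⟩
    omega
  intro u v huv hnadj
  have hf : adjB u v = false := by
    rw [adj_iff] at hnadj
    simpa using hnadj
  have hE : (H ⊔ edge u v).Adj u v := by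
    rw [sup_adj, edge_adj]
    exact Or.inr ⟨Or.inl ⟨rfl, rfl⟩, huv⟩
  obtain ⟨w, hw | hw⟩ := crit u v huv hf
  · exact main u v w huv hw _ le_sup_left hE
  · exact main v u w huv.symm hw _ le_sup_left hE.symm

/-- **MP_5ead0a_co, Q1 (answer: yes).** There is a 3-critical graph on 28 vertices, fewer than
56, whose domination number is 3 and whose independent domination number is 4. -/
theorem result : ∃ G : SimpleGraph (Fin 28), ThreeCritical G ∧ gam G = 3 ∧ idom G = 4 :=
  ⟨H, critical, gam_eq, idom_eq⟩

end Pool.Agent.Results.MP_5ead0a_co.TwentyEight
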